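import Pool.Agent.Helper43.CR.Defs

/-!
Stubs of the independent pieces.
-/

set_option autoImplicit false

open Set Topology Filter TopologicalSpace

namespace Pool.Agent.Helper43.CR

/-! ### CR-1 -/

/-- Brouwer: a nonempty compact Hausdorff space without isolated points whose points are separated
by countably many clopen sets is homeomorphic to Cantor space. -/
theorem brouwer (S : Type) [TopologicalSpace S] [CompactSpace S] [T2Space S] [Nonempty S]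
    (C : ℕ → Set S) (hC : ∀ n, IsClopen (C n))
    (hsep : ∀ x y, x ≠ y → ∃ n, ¬ (x ∈ C n ↔ y ∈ C n))
    (hperf : ∀ (x : S) (U : Set S), IsOpen U → x ∈ U → ∃ y ∈ U, y ≠ x) :
    Nonempty (S ≃ₜ (ℕ → Bool)) := by
  sorry

/-! ### CR-2 -/

/-- Vectors can be moved slightly into general position. -/
theorem general_position (d m : ℕ) (u : Fin m → Fin (d + 1) → ℝ) (ε : ℝ) (hε : 0 < ε) :
    ∃ v : Fin m → Fin (d + 1) → ℝ, (∀ k i, |v k i - u k i| ≤ ε) ∧
      ∀ T : Finset (Fin m), T.card ≤ d + 1 → ∀ c : Fin m → ℝ,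
        (∑ k ∈ T, c k • v k) = 0 → ∀ k ∈ T, c k = 0 := by
  sorry

/-! ### CR-3 -/

/-- A map from a `d`-dimensional compact space to `ℝ^(d+1)` can be moved off the origin. (Uses
`general_position`.) -/
theorem exists_nonvanishing (X : Type) [TopologicalSpace X] [CompactSpace X] [T2Space X] (d : ℕ)
    (hd : CovDimLE X d) (F : X → Fin (d + 1) → ℝ) (hF : Continuous F) (ε : ℝ) (hε : 0 < ε) :
    ∃ G : X → Fin (d + 1) → ℝ, Continuous G ∧ (∀ x i, |G x i - F x i| ≤ ε) ∧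
      ∀ x, G x ≠ 0 := by
  sorry

/-! ### CR-4 -/

/-- Closed subsets do not raise the covering dimension. -/
theorem CovDimLE.closed_subset {X : Type} [TopologicalSpace X] {A C : Set X} {d : ℕ}
    (h : CovDimLE A d) (hC : IsClosed C) (hCA : C ⊆ A) : CovDimLE C d := by
  sorry

/-! ### CR-5 -/

/-- Perturbation of finitely many functions along disjoint translates. (Uses
`exists_nonvanishing`.) -/
theorem density_step (K : Type) [MetricSpace K] [CompactSpace K] (C : Set K) (hC : IsClosed C)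
    (d : ℕ) (hd : CovDimLE C d) (n : Fin (d + 1) → ℕ) (φ : Fin (d + 1) → (K ≃ₜ K))
    (hdisj : ∀ i i', i ≠ i' → n i = n i' → Disjoint (φ i '' C) (φ i' '' C))
    (f : ℕ → C(K, ℝ)) (ε : ℝ) (hε : 0 < ε) :
    ∃ g : ℕ → C(K, ℝ), (∀ m x, |g m x - f m x| ≤ ε) ∧
      ∀ x ∈ C, ∃ i, g (n i) (φ i x) ≠ 0 := by
  sorry

/-! ### CR-6 -/

/-- Countably many functions separating points strongly. -/
theorem exists_separating (K : Type) [MetricSpace K] [CompactSpace K] :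
    ∃ h : ℕ → C(K, ℝ), ∀ x y, x ≠ y → ∃ n, h n x ≤ -2 ∧ 2 ≤ h n y := by
  sorry

/-! ### CR-7 -/

/-- The Baire category step. -/
theorem baire_step (K : Type) [MetricSpace K] [CompactSpace K] (τ : Type) [Countable τ]
    (C : τ → Set K) (hC : ∀ t, IsClosed (C t)) (N : τ → ℕ) (n : ∀ t, Fin (N t) → ℕ)
    (φ : ∀ t, Fin (N t) → (K ≃ₜ K))
    (hdense : ∀ t, ∀ f : ℕ → C(K, ℝ), ∀ ε : ℝ, 0 < ε → ∃ g : ℕ → C(K, ℝ),
      (∀ m x, |g m x - f m x| ≤ ε) ∧ ∀ x ∈ C t, ∃ i, g (n t i) (φ t i x) ≠ 0)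
    (h : ℕ → C(K, ℝ)) :
    ∃ f : ℕ → C(K, ℝ), (∀ m x, |f m x - h m x| ≤ 1) ∧
      ∀ t, ∀ x ∈ C t, ∃ i, f (n t i) (φ t i x) ≠ 0 := by
  sorry

/-! ### CR-8 -/

/-- Functions in general position: every orbit meeting `A j` meets the zero sets of the functions
`f n` at most `d j` times. (Uses `density_step`, `baire_step`, `exists_separating` and
`CovDimLE.closed_subset`.) -/
theorem exists_generic (K Γ : Type) [MetricSpace K] [CompactSpace K] [Group Γ] [Countable Γ]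
    [MulAction Γ K] [ContinuousConstSMul Γ K] (A : ℕ → Set K) (d : ℕ → ℕ)
    (hA : ∀ j, IsClosed (A j)) (hd : ∀ j, CovDimLE (A j) (d j)) :
    ∃ f : ℕ → C(K, ℝ), (∀ x y, x ≠ y → ∃ n, f n x < 0 ∧ 0 < f n y) ∧
      ∀ j, ∀ x ∈ A j, ∀ s : Finset (ℕ × K),
        (∀ p ∈ s, p.2 ∈ MulAction.orbit Γ x ∧ f p.1 p.2 = 0) → s.card ≤ d j := by
  sorry

/-! ### CR-9 -/

/-- The perfect kernel. -/
theorem perfect_kernel (S : Type) [TopologicalSpace S] [SecondCountableTopology S] :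
    IsClosed {x : S | ∀ U : Set S, IsOpen U → x ∈ U → ¬ U.Countable} ∧
      {x : S | ∀ U : Set S, IsOpen U → x ∈ U → ¬ U.Countable}ᶜ.Countable ∧
      ∀ x : S, (∀ U : Set S, IsOpen U → x ∈ U → ¬ U.Countable) →
        ∀ U : Set S, IsOpen U → x ∈ U → ∃ y ∈ U, y ≠ x ∧
          ∀ U : Set S, IsOpen U → y ∈ U → ¬ U.Countable := by
  sorry

/-! ### CR-10 -/

/-- An aperiodic smooth action of a countable group: the orbit equivalence relation is a product
`T × ℕ`. -/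
theorem smooth_product (Γ V : Type) [Group Γ] [Countable Γ] [MeasurableSpace V]
    [StandardBorelSpace V] [MulAction Γ V] (hm : ∀ g : Γ, Measurable (fun x : V => g • x))
    (hinf : ∀ x : V, (MulAction.orbit Γ x).Infinite) (T : Set V) (hT : MeasurableSet T)
    (hT1 : ∀ x : V, ∃! t, t ∈ T ∧ t ∈ MulAction.orbit Γ x) :
    ∃ e : (T × ℕ) ≃ᵐ V, ∀ p q, (e p ∈ MulAction.orbit Γ (e q) ↔ p.1 = q.1) := by
  sorry

/-! ### CR-11 -/

/-- A Borel set meeting orbits in finite sets contains a Borel transversal of its saturation. -/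
theorem exists_transversal (Γ Y : Type) [Group Γ] [Countable Γ] [MeasurableSpace Y]
    [StandardBorelSpace Y] [MulAction Γ Y] (hm : ∀ g : Γ, Measurable (fun x : Y => g • x))
    (D : Set Y) (hD : MeasurableSet D)
    (hfin : ∀ x ∈ D, (MulAction.orbit Γ x ∩ D).Finite) :
    ∃ T ⊆ D, MeasurableSet T ∧ ∀ x ∈ D, ∃! t, t ∈ T ∧ t ∈ MulAction.orbit Γ x := by
  sorry

/-! ### CR-12 -/

/-- Gluing of two Borel isomorphisms of orbit equivalence relations. (Uses `smooth_product`.) -/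
theorem glue (Γ K S : Type) [Group Γ] [Countable Γ] [MeasurableSpace K] [StandardBorelSpace K]
    [MeasurableSpace S] [StandardBorelSpace S] [MulAction Γ K] [MulAction Γ S]
    (hmK : ∀ g : Γ, Measurable (fun x : K => g • x))
    (hmS : ∀ g : Γ, Measurable (fun x : S => g • x))
    (hinfK : ∀ x : K, (MulAction.orbit Γ x).Infinite)
    (hinfS : ∀ x : S, (MulAction.orbit Γ x).Infinite)
    (π : S → K) (hπ : Measurable π) (hπg : ∀ (g : Γ) (s : S), π (g • s) = g • π s)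
    (V : Set K) (hV : MeasurableSet V) (hVg : ∀ (g : Γ), ∀ x ∈ V, g • x ∈ V)
    (hbij : ∀ x, x ∉ V → ∃! s, π s = x)
    (T₁ : Set K) (hT₁ : MeasurableSet T₁) (hTV₁ : T₁ ⊆ V)
    (hT₁1 : ∀ x ∈ V, ∃! t, t ∈ T₁ ∧ t ∈ MulAction.orbit Γ x) (hTi₁ : T₁.Infinite)
    (T₂ : Set S) (hT₂ : MeasurableSet T₂) (hTV₂ : T₂ ⊆ π ⁻¹' V)
    (hT₂1 : ∀ x ∈ π ⁻¹' V, ∃! t, t ∈ T₂ ∧ t ∈ MulAction.orbit Γ x) (hTi₂ : T₂.Infinite)
    (hcount : T₁.Countable ↔ T₂.Countable) :
    ∃ e : K ≃ᵐ S, ∀ x y : K, y ∈ MulAction.orbit Γ x ↔ e y ∈ MulAction.orbit Γ (e x) := by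
  sorry

/-! ### CR-13 -/

section sset

variable {K Γ : Type} [TopologicalSpace K] [T2Space K] [Group Γ] [MulAction Γ K]
  [ContinuousConstSMul Γ K]

theorem sset_isClosed (f : ℕ → C(K, ℝ)) : IsClosed (SSet Γ f) := by
  sorry

theorem sset_nonempty (f : ℕ → C(K, ℝ)) (x : K) : ∃ ω, (x, ω) ∈ SSet Γ f := by
  sorry

theorem sset_unique (f : ℕ → C(K, ℝ)) (x : K) (h : ∀ n (g : Γ), f n (g • x) ≠ 0)
    (ω ω' : ℕ × Γ → Bool) (h1 : (x, ω) ∈ SSet Γ f) (h2 : (x, ω') ∈ SSet Γ f) : ω = ω' := by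
  sorry

theorem sset_fiber_finite (f : ℕ → C(K, ℝ)) (x : K) (hiso : FiniteIsotropy Γ x)
    (hfin : {p : ℕ × K | p.2 ∈ MulAction.orbit Γ x ∧ f p.1 p.2 = 0}.Finite) :
    {ω : ℕ × Γ → Bool | (x, ω) ∈ SSet Γ f}.Finite := by
  sorry

theorem sset_smul (f : ℕ → C(K, ℝ)) (g : Γ) (x : K) (ω : ℕ × Γ → Bool)
    (h : (x, ω) ∈ SSet Γ f) : (g • x, fun p : ℕ × Γ => ω (p.1, p.2 * g)) ∈ SSet Γ f := by
  sorry

end sset

end Pool.Agent.Helper43.CR
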