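import Pool.Agent.Helper43.CR.Defs

/-!
Second batch of stubs.
-/

set_option autoImplicit false

open Set Topology Filter TopologicalSpace

namespace Pool.Agent.Helper43.CR

/-! ### CR-14 -/

/-- An uncountable compact set of points in pairwise different orbits. -/
theorem exists_perfect_transversal (Γ K : Type) [Group Γ] [Countable Γ] [MetricSpace K]
    [CompactSpace K] [Uncountable K] [MulAction Γ K] [ContinuousConstSMul Γ K] :
    ∃ P : Set K, IsCompact P ∧ ¬ P.Countable ∧
      ∀ x ∈ P, ∀ y ∈ P, y ∈ MulAction.orbit Γ x → x = y := by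
  sorry

end Pool.Agent.Helper43.CR
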